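import Pool.Agent.Lib_helper2.EFD.W.MA
import Pool.Agent.Lib_helper2.EFD.W.MD

namespace Pool.Agent.EFD

/-- the ordered pairs of agents -/
def me_prs : Fin 6 → Fin 3 × Fin 3 := ![(0, 1), (0, 2), (1, 0), (1, 2), (2, 0), (2, 1)]

theorem me_prs_surj : ∀ i j : Fin 3, i ≠ j → ∃ r : Fin 6, me_prs r = (i, j) := by
  decide

/-- the functional which measures how much `i` prefers bundle `i` to bundle `j` -/
noncomputable def me_F {ι : Type} (u : Fin 3 → ι → ℝ) (p : Fin 3 × Fin 3) (g : ι) (l : Fin 3) : ℝ :=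
  u p.1 g * ((if l = p.1 then 1 else 0) - (if l = p.2 then 1 else 0))

theorem me_F_osc {ι : Type} (u : Fin 3 → ι → ℝ) (h0 : ∀ i g, 0 ≤ u i g) (mu : ℝ)
    (hmu : ∀ i g, u i g ≤ mu) (p : Fin 3 × Fin 3) (g : ι) (l l' : Fin 3) :
    me_F u p g l - me_F u p g l' ≤ 2 * mu := by
  have h1 := h0 p.1 g
  have h2 := hmu p.1 g
  unfold me_F
  split_ifs <;> linarith

/-- case 1: all three pairs are far from each other -/
theorem case1_pr {ι : Type} [Fintype ι] (u : Fin 3 → ι → ℝ) (h0 : ∀ i g, 0 ≤ u i g)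
    (h1 : ∀ i, ∑ g, u i g = 1) (mu : ℝ) (hmu : ∀ i g, u i g ≤ mu) (hmu0 : 0 < mu)
    (hd : ∀ i j, i ≠ j → 1176 * mu ≤ ∑ g, |u i g - u j g|) :
    ∃ σ : ι → Fin 3, ∀ i j, i ≠ j →
      (∑ g, if σ g = j then u i g else 0) + mu / 4 ≤ ∑ g, if σ g = i then u i g else 0 := by
  obtain ⟨x, hx0, hx1, hx⟩ := margin u h0 h1 (1176 * mu) (by positivity) hd
  obtain ⟨σ, hσ⟩ := rounding 6 (fun r => me_F u (me_prs r)) (fun _ => 2 * mu)
    (fun _ => by positivity) (fun r g j j' => me_F_osc u h0 mu hmu (me_prs r) g j j') x hx0 hx1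
  refine ⟨σ, fun i j hij => ?_⟩
  obtain ⟨r, hr⟩ := me_prs_surj i j hij
  have h2 := hσ r
  rw [hr] at h2
  have h3 := hx i j hij
  have e1 : ∑ g, me_F u (i, j) g (σ g) =
      (∑ g, if σ g = i then u i g else 0) - ∑ g, if σ g = j then u i g else 0 := by
    rw [← Finset.sum_sub_distrib]
    apply Finset.sum_congr rfl
    intro g _
    unfold me_F
    simp only [mul_sub, mul_ite, mul_one, mul_zero]
  have e2 : ∑ g, ∑ l, x g l * me_F u (i, j) g l = ∑ g, u i g * (x g i - x g j) := by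
    apply Finset.sum_congr rfl
    intro g _
    unfold me_F
    simp only [mul_sub, mul_ite, mul_one, mul_zero, Finset.sum_sub_distrib, Finset.sum_ite_eq',
      Finset.mem_univ, if_true]
    ring
  rw [e1, e2] at h2
  have h4 := (abs_le.mp h2).1
  norm_num at h4
  linarith

end Pool.Agent.EFD
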