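import Mathlib

namespace Pool.Agent.EFD

/-- the admissible fractional assignments with prescribed values of the functionals -/
structure MA_Adm {ι : Type} [Fintype ι] {k : ℕ} (F : Fin k → ι → Fin 3 → ℝ) (v : Fin k → ℝ)
    (x : ι → Fin 3 → ℝ) : Prop where
  nonneg : ∀ g j, 0 ≤ x g j
  sum_one : ∀ g, ∑ j, x g j = 1
  val : ∀ r, ∑ g, ∑ j, x g j * F r g j = v r

open Classical in
/-- the number of nonzero entries -/
noncomputable def MA_supp {ι : Type} [Fintype ι] (x : ι → Fin 3 → ℝ) : Finset (ι × Fin 3) :=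
  Finset.univ.filter fun p => x p.1 p.2 ≠ 0

open Classical in
theorem MA_step {ι : Type} [Fintype ι] {k : ℕ} {F : Fin k → ι → Fin 3 → ℝ} {v : Fin k → ℝ}
    {x : ι → Fin 3 → ℝ} (h : MA_Adm F v x) (S : Finset ι) (j₁ j₂ : ι → Fin 3)
    (hne : ∀ g ∈ S, j₁ g ≠ j₂ g) (h1 : ∀ g ∈ S, x g (j₁ g) ≠ 0) (h2 : ∀ g ∈ S, x g (j₂ g) ≠ 0)
    (hS : k < S.card) : ∃ y, MA_Adm F v y ∧ (MA_supp y).card < (MA_supp x).card := by
  -- the linear relation
  let Λ : (S → ℝ) →ₗ[ℝ] (Fin k → ℝ) :=
    { toFun := fun c r => ∑ g : S, c g * (F r g (j₁ g) - F r g (j₂ g))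
      map_add' := fun c c' => by
        ext r
        simp only [Pi.add_apply, add_mul, Finset.sum_add_distrib]
      map_smul' := fun a c => by
        ext r
        simp only [Pi.smul_apply, smul_eq_mul, RingHom.id_apply, Finset.mul_sum, mul_assoc] }
  have hker : LinearMap.ker Λ ≠ ⊥ := by
    apply LinearMap.ker_ne_bot_of_finrank_lt
    rw [Module.finrank_pi, Module.finrank_pi, Fintype.card_fin, Fintype.card_coe]
    exact hS
  obtain ⟨c, hc, hc0⟩ := Submodule.exists_mem_ne_zero_of_ne_bot hker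
  have hΛ : ∀ r, ∑ g : S, c g * (F r g (j₁ g) - F r g (j₂ g)) = 0 := by
    intro r
    have := congrFun (LinearMap.mem_ker.mp hc) r
    exact this
  -- extension by zero
  let c' : ι → ℝ := fun g => if hg : g ∈ S then c ⟨g, hg⟩ else 0
  have hc'0 : ∀ g, g ∉ S → c' g = 0 := fun g hg => dif_neg hg
  let d : ι → Fin 3 → ℝ := fun g j =>
    c' g * ((if j = j₁ g then 1 else 0) - (if j = j₂ g then 1 else 0))
  have hdsum : ∀ g, ∑ j, d g j = 0 := by
    intro g
    simp only [d, ← Finset.mul_sum, Finset.sum_sub_distrib, Finset.sum_ite_eq', Finset.mem_univ,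
      if_true, sub_self, mul_zero]
  have hdF : ∀ r g, ∑ j, d g j * F r g j = c' g * (F r g (j₁ g) - F r g (j₂ g)) := by
    intro r g
    simp only [d, mul_assoc, ← Finset.mul_sum, sub_mul, Finset.sum_sub_distrib, ite_mul, one_mul,
      zero_mul, Finset.sum_ite_eq', Finset.mem_univ, if_true]
  have hdval : ∀ r, ∑ g, ∑ j, d g j * F r g j = 0 := by
    intro r
    rw [Finset.sum_congr rfl fun g _ => hdF r g]
    rw [← hΛ r]
    rw [← Finset.sum_subset (Finset.subset_univ S)
      (fun g _ hg => by rw [hc'0 g hg, zero_mul]), ← Finset.sum_coe_sort S]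
    apply Finset.sum_congr rfl
    intro g _
    simp only [c', g.2, dif_pos]
  have hdsupp : ∀ g j, d g j ≠ 0 → x g j ≠ 0 := by
    intro g j hd
    by_cases hg : g ∈ S
    · by_cases e1 : j = j₁ g
      · rw [e1]; exact h1 g hg
      · by_cases e2 : j = j₂ g
        · rw [e2]; exact h2 g hg
        · exact absurd (by simp only [d, if_neg e1, if_neg e2, sub_self, mul_zero]) hd
    · exact absurd (by simp only [d, hc'0 g hg, zero_mul]) hd
  have hneg : ∃ p : ι × Fin 3, d p.1 p.2 < 0 := by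
    obtain ⟨g, hg⟩ : ∃ g : S, c g ≠ 0 := by
      by_contra hcon
      push Not at hcon
      exact hc0 (funext hcon)
    have hcg : c' g = c g := by simp only [c', g.2, dif_pos]
    have hn := hne g g.2
    rcases lt_or_gt_of_ne hg with hlt | hgt
    · refine ⟨(g, j₁ g), ?_⟩
      simp only [d, if_true, if_neg hn, sub_zero, mul_one, hcg]
      exact hlt
    · refine ⟨(g, j₂ g), ?_⟩
      simp only [d, if_true, if_neg hn.symm, zero_sub, mul_neg, mul_one, hcg]
      linarith
  obtain ⟨p₀, hp₀⟩ := hneg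
  let N : Finset (ι × Fin 3) := Finset.univ.filter fun p => d p.1 p.2 < 0
  have hN : N.Nonempty := ⟨p₀, Finset.mem_filter.mpr ⟨Finset.mem_univ _, hp₀⟩⟩
  obtain ⟨q, hq, hqm⟩ := Finset.exists_min_image N (fun p => x p.1 p.2 / (-d p.1 p.2)) hN
  have hqd : d q.1 q.2 < 0 := (Finset.mem_filter.mp hq).2
  set t : ℝ := x q.1 q.2 / (-d q.1 q.2) with ht
  have ht0 : 0 ≤ t := div_nonneg (h.nonneg _ _) (by linarith)
  refine ⟨fun g j => x g j + t * d g j, ⟨?_, ?_, ?_⟩, ?_⟩
  · intro g j
    by_cases hd : d g j < 0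
    · have h3 := hqm (g, j) (Finset.mem_filter.mpr ⟨Finset.mem_univ _, hd⟩)
      have h4 : t ≤ x g j / (-d g j) := h3
      rw [le_div_iff₀ (by linarith)] at h4
      linarith
    · push Not at hd
      have := h.nonneg g j
      positivity
  · intro g
    rw [Finset.sum_add_distrib, h.sum_one, ← Finset.mul_sum, hdsum, mul_zero, add_zero]
  · intro r
    have e : ∀ g, ∑ j, (x g j + t * d g j) * F r g j =
        ∑ j, x g j * F r g j + t * ∑ j, d g j * F r g j := by
      intro g
      rw [Finset.mul_sum, ← Finset.sum_add_distrib]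
      apply Finset.sum_congr rfl
      intro j _
      ring
    rw [Finset.sum_congr rfl fun g _ => e g, Finset.sum_add_distrib, h.val, ← Finset.mul_sum,
      hdval, mul_zero, add_zero]
  · apply Finset.card_lt_card
    rw [Finset.ssubset_iff_of_subset]
    · refine ⟨q, ?_, ?_⟩
      · exact Finset.mem_filter.mpr ⟨Finset.mem_univ _, hdsupp _ _ hqd.ne⟩
      · intro hm
        have h5 := (Finset.mem_filter.mp hm).2
        apply h5
        have h6 : t * (-d q.1 q.2) = x q.1 q.2 := by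
          rw [ht]
          exact div_mul_cancel₀ _ (by linarith [hqd] : -d q.1 q.2 ≠ 0)
        linarith
    · intro p hp
      have h5 := (Finset.mem_filter.mp hp).2
      apply Finset.mem_filter.mpr
      refine ⟨Finset.mem_univ _, fun hx => ?_⟩
      apply h5
      have h6 : d p.1 p.2 = 0 := by
        by_contra hd
        exact hdsupp _ _ hd hx
      show x p.1 p.2 + t * d p.1 p.2 = 0
      rw [hx, h6, mul_zero, add_zero]

/-- rounding of a fractional assignment, error at most (number of functionals) x (oscillation) -/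
theorem rounding_pr {ι : Type} [Fintype ι] (k : ℕ) (F : Fin k → ι → Fin 3 → ℝ) (B : Fin k → ℝ)
    (hB0 : ∀ r, 0 ≤ B r) (hB : ∀ r g j j', F r g j - F r g j' ≤ B r) (x : ι → Fin 3 → ℝ) (hx0 : ∀ g j, 0 ≤ x g j)
    (hx1 : ∀ g, ∑ j, x g j = 1) :
    ∃ σ : ι → Fin 3, ∀ r, |∑ g, F r g (σ g) - ∑ g, ∑ j, x g j * F r g j| ≤ k * B r := by
  classical
  set v : Fin k → ℝ := fun r => ∑ g, ∑ j, x g j * F r g j with hv
  have hex : ∃ n : ℕ, ∃ y, MA_Adm F v y ∧ (MA_supp y).card = n :=
    ⟨_, x, ⟨hx0, hx1, fun r => rfl⟩, rfl⟩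
  obtain ⟨y, hy, hyn⟩ := Nat.find_spec hex
  have hmin : ∀ z, MA_Adm F v z → ¬ (MA_supp z).card < (MA_supp y).card := by
    intro z hz hlt
    exact Nat.find_min hex (by rw [← hyn]; exact hlt) ⟨z, hz, rfl⟩
  let S : Finset ι := Finset.univ.filter fun g => ∃ j₁ j₂, j₁ ≠ j₂ ∧ y g j₁ ≠ 0 ∧ y g j₂ ≠ 0
  have hS : S.card ≤ k := by
    by_contra hcon
    push Not at hcon
    have hch : ∀ g, ∃ q : Fin 3 × Fin 3, g ∈ S → q.1 ≠ q.2 ∧ y g q.1 ≠ 0 ∧ y g q.2 ≠ 0 := by
      intro g
      by_cases hg : g ∈ S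
      · obtain ⟨j₁, j₂, h1, h2, h3⟩ := (Finset.mem_filter.mp hg).2
        exact ⟨(j₁, j₂), fun _ => ⟨h1, h2, h3⟩⟩
      · exact ⟨(0, 0), fun h => absurd h hg⟩
    choose q hq using hch
    obtain ⟨z, hz, hlt⟩ := MA_step hy S (fun g => (q g).1) (fun g => (q g).2)
      (fun g hg => (hq g hg).1) (fun g hg => (hq g hg).2.1) (fun g hg => (hq g hg).2.2) hcon
    exact hmin z hz hlt
  have hσ : ∀ g, ∃ j, y g j ≠ 0 := by
    intro g
    by_contra hcon
    push Not at hcon
    have := hy.sum_one g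
    rw [Finset.sum_congr rfl fun j _ => hcon j, Finset.sum_const_zero] at this
    exact zero_ne_one this
  choose σ hσ using hσ
  refine ⟨σ, fun r => ?_⟩
  have hdiff : ∀ g, F r g (σ g) - ∑ j, y g j * F r g j =
      ∑ j, y g j * (F r g (σ g) - F r g j) := by
    intro g
    simp only [mul_sub, Finset.sum_sub_distrib, ← Finset.sum_mul, hy.sum_one g, one_mul]
  have hout : ∀ g, g ∉ S → F r g (σ g) - ∑ j, y g j * F r g j = 0 := by
    intro g hg
    rw [hdiff]
    apply Finset.sum_eq_zero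
    intro j _
    by_cases hj : j = σ g
    · rw [hj, sub_self, mul_zero]
    · have : y g j = 0 := by
        by_contra h0
        exact hg (Finset.mem_filter.mpr ⟨Finset.mem_univ _, j, σ g, hj, h0, hσ g⟩)
      rw [this, zero_mul]
  have hin : ∀ g, |F r g (σ g) - ∑ j, y g j * F r g j| ≤ B r := by
    intro g
    rw [hdiff]
    calc |∑ j, y g j * (F r g (σ g) - F r g j)| ≤ ∑ j, |y g j * (F r g (σ g) - F r g j)| :=
          Finset.abs_sum_le_sum_abs _ _
      _ ≤ ∑ j, y g j * B r := by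
          apply Finset.sum_le_sum
          intro j _
          rw [abs_mul, abs_of_nonneg (hy.nonneg g j)]
          apply mul_le_mul_of_nonneg_left _ (hy.nonneg g j)
          rw [abs_le]
          constructor
          · linarith [hB r g j (σ g)]
          · exact hB r g (σ g) j
      _ = B r := by rw [← Finset.sum_mul, hy.sum_one g, one_mul]
  have hval : ∑ g, ∑ j, x g j * F r g j = ∑ g, ∑ j, y g j * F r g j := (hy.val r).symm
  rw [hval, ← Finset.sum_sub_distrib]
  rw [← Finset.sum_subset (Finset.subset_univ S) (fun g _ hg => hout g hg)]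
  calc |∑ g ∈ S, (F r g (σ g) - ∑ j, y g j * F r g j)|
      ≤ ∑ g ∈ S, |F r g (σ g) - ∑ j, y g j * F r g j| := Finset.abs_sum_le_sum_abs _ _
    _ ≤ ∑ g ∈ S, B r := Finset.sum_le_sum fun g _ => hin g
    _ = S.card * B r := by rw [Finset.sum_const, nsmul_eq_mul]
    _ ≤ k * B r := by
        apply mul_le_mul_of_nonneg_right _ (hB0 r)
        exact_mod_cast hS

end Pool.Agent.EFD
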