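import Pool.Agent.Lib_helper2.EFD.W.PA

namespace Pool.Agent.EFD
open Pool.Agent.PTm Pool.Agent.EFX3

variable {γ : Type} [ToD γ]

theorem sz_addNew_pr (K : Fin 3 → List Unit) (L : List Part) (P : Part) :
    sz (addNew K L P) ≤ sz L + sz P + 1 := by
  unfold addNew
  split_ifs
  · rw [sz_cons]
    omega
  · omega

theorem pt_addNew_pr {K : γ → Fin 3 → List Unit} {L : γ → List Part} {P : γ → Part} (hK : PTime K)
    (hL : PTime L) (hP : PTime P) : PTime (fun c => addNew (K c) (L c) (P c)) := by
  have hall : PTime (fun c => (L c).all fun Q => !same (K c) (P c) Q) := by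
    refine PTime.all (f := fun c Q => !same (K c) (P c) Q) hL ?_
    exact PTime.not (pt_same (PTime.comp hK pt_fst) (PTime.comp hP pt_fst) pt_snd)
  exact PTime.ite hall (PTime.cons hP hL) hL

theorem PB_expand0 : PTime (fun p : (Fin 3 → List Unit) × Good × List Part =>
    expand p.1 p.2.1 p.2.2) := by
  refine PTime.foldl_add (γ := (Fin 3 → List Unit) × Good × List Part) (α := Part)
    (β := List Part) (l := fun p => p.2.2) (i := fun _ => [])
    (s := fun p M P => addNew p.1 (addNew p.1 (addNew p.1 M (put P 0 p.2.1)) (put P 1 p.2.1))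
      (put P 2 p.2.1)) (PTime.snd pt_snd) (PTime.const []) ?_
    (Polynomial.X + Polynomial.X + Polynomial.X) ?_
  · have hK : PTime (fun q : ((Fin 3 → List Unit) × Good × List Part) × List Part × Part =>
        q.1.1) := PTime.fst pt_fst
    have hg : PTime (fun q : ((Fin 3 → List Unit) × Good × List Part) × List Part × Part =>
        q.1.2.1) := PTime.fst (PTime.snd pt_fst)
    have hM : PTime (fun q : ((Fin 3 → List Unit) × Good × List Part) × List Part × Part =>
        q.2.1) := PTime.fst pt_snd
    have hP : PTime (fun q : ((Fin 3 → List Unit) × Good × List Part) × List Part × Part =>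
        q.2.2) := PTime.snd pt_snd
    exact pt_addNew_pr hK (pt_addNew_pr hK (pt_addNew_pr hK hM (pt_put hP (PTime.const 0) hg))
      (pt_put hP (PTime.const 1) hg)) (pt_put hP (PTime.const 2) hg)
  · intro x b P hP
    have h1 := sz_le_of_mem hP
    have h2 : sz x = sz x.1 + (sz x.2.1 + sz x.2.2 + 1) + 1 := rfl
    have e1 := sz_addNew_pr x.1 b (put P 0 x.2.1)
    have e2 := sz_addNew_pr x.1 (addNew x.1 b (put P 0 x.2.1)) (put P 1 x.2.1)
    have e3 := sz_addNew_pr x.1 (addNew x.1 (addNew x.1 b (put P 0 x.2.1)) (put P 1 x.2.1))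
      (put P 2 x.2.1)
    rw [sz_put] at e1 e2 e3
    simp only [Polynomial.eval_add, Polynomial.eval_X]
    omega

theorem pt_expand_pr {K : γ → Fin 3 → List Unit} {g : γ → Good} {L : γ → List Part} (hK : PTime K)
    (hg : PTime g) (hL : PTime L) : PTime (fun c => expand (K c) (g c) (L c)) :=
  PTime.comp (g := fun p : (Fin 3 → List Unit) × Good × List Part => expand p.1 p.2.1 p.2.2)
    (f := fun c => (K c, g c, L c)) PB_expand0 (PTime.pair hK (PTime.pair hg hL))

end Pool.Agent.EFD
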